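import Pool.Agent.Helper16.SD.GoalsS

/-!
# Project SD (MP_fc6b1e_nt), packet A_NDG: the archimedean matrix
-/

set_option autoImplicit false

namespace Pool.Agent.Helper49.SD.A_NDG

open NumberField Module
open Pool.Agent.Helper51.SigLeo Pool.Agent.Helper16.SD
open Pool.Agent.Helper17.SL (archLog)

theorem exists_rep {I : Type} [Fintype I] (τ : I → I) (h2 : ∀ i, τ (τ i) = i)
    (h0 : ∀ i, τ i ≠ i) (d : ℕ) (hd : Fintype.card I = 2 * d) :
    ∃ rep : Fin d → I, (∀ i j, rep i = rep j → i = j) ∧ (∀ i j, τ (rep i) ≠ rep j) ∧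
      ∀ σ, ∃ j, σ = rep j ∨ σ = τ (rep j) := by
  classical
  let e := Fintype.equivFin I
  let R : Finset I := Finset.univ.filter fun i => e i < e (τ i)
  have hR : ∀ i, i ∈ R ↔ e i < e (τ i) := by
    intro i
    show i ∈ Finset.univ.filter _ ↔ _
    rw [Finset.mem_filter]
    exact ⟨fun h => h.2, fun h => ⟨Finset.mem_univ i, h⟩⟩
  have hinj : Function.Injective τ := fun a b h => by rw [← h2 a, ← h2 b, h]
  have hc : R.card = d := by
    have h3 : R.image τ = Finset.univ.filter (fun i => ¬ e i < e (τ i)) := by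
      ext i
      rw [Finset.mem_image, Finset.mem_filter]
      constructor
      · rintro ⟨j, hj, rfl⟩
        refine ⟨Finset.mem_univ _, ?_⟩
        rw [h2, not_lt]
        exact ((hR j).1 hj).le
      · rintro ⟨-, hi⟩
        refine ⟨τ i, (hR _).2 ?_, h2 i⟩
        rw [h2]
        exact lt_of_le_of_ne (not_lt.1 hi) (fun h => h0 i (e.injective h))
    have h4 : (R.image τ).card = R.card := Finset.card_image_of_injective _ hinj
    have h5 := Finset.card_filter_add_card_filter_not (s := (Finset.univ : Finset I))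
      (fun i => e i < e (τ i))
    rw [← h3, h4, Finset.card_univ] at h5
    have h6 : R.card + R.card = Fintype.card I := h5
    omega
  let E := Finset.equivFinOfCardEq hc
  refine ⟨fun j => (E.symm j : I), ?_, ?_, ?_⟩
  · intro i j h
    exact E.symm.injective (Subtype.ext h)
  · intro i j h'
    have h : τ (E.symm i : I) = (E.symm j : I) := h'
    have h6 := (hR _).1 (E.symm i).2
    have h7 := (hR _).1 (E.symm j).2
    rw [← h, h2] at h7
    exact lt_asymm h6 h7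
  · intro σ
    by_cases h : e σ < e (τ σ)
    · refine ⟨E ⟨σ, (hR σ).2 h⟩, Or.inl ?_⟩
      show σ = ((E.symm (E ⟨σ, (hR σ).2 h⟩) : R) : I)
      rw [Equiv.symm_apply_apply]
    · have h7 : τ σ ∈ R := (hR _).2 (by
        rw [h2]
        exact lt_of_le_of_ne (not_lt.1 h) (fun h' => h0 σ (e.injective h')))
      refine ⟨E ⟨τ σ, h7⟩, Or.inr ?_⟩
      show σ = τ ((E.symm (E ⟨τ σ, h7⟩) : R) : I)
      rw [Equiv.symm_apply_apply, h2]

theorem sum_rep {I : Type} [Fintype I] (τ : I → I) (h2 : ∀ i, τ (τ i) = i) {d : ℕ}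
    (rep : Fin d → I) (r1 : ∀ i j, rep i = rep j → i = j) (r2 : ∀ i j, τ (rep i) ≠ rep j)
    (r3 : ∀ σ, ∃ j, σ = rep j ∨ σ = τ (rep j)) (f : I → ℂ) :
    ∑ σ, f σ = ∑ j, (f (rep j) + f (τ (rep j))) := by
  have hb : Function.Bijective (Sum.elim rep (fun j => τ (rep j))) := by
    constructor
    · rintro (i | i) (j | j) h
      · exact congrArg Sum.inl (r1 i j h)
      · exact absurd h.symm (r2 j i)
      · exact absurd h (r2 i j)
      · refine congrArg Sum.inr (r1 i j ?_)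
        have h' : τ (rep i) = τ (rep j) := h
        rw [← h2 (rep i), h', h2]
    · intro σ
      obtain ⟨j, hj | hj⟩ := r3 σ
      · exact ⟨Sum.inl j, hj.symm⟩
      · exact ⟨Sum.inr j, hj.symm⟩
  rw [← hb.sum_comp f, Fintype.sum_sum_type, Finset.sum_add_distrib]
  rfl

section

variable {K : Type} [Field K] [NumberField K] {F : Type} [Field F] [NumberField F] [Algebra K F]

theorem arch_conj (ιinf : AlgebraicClosure K →+* ℂ) (c : AlgebraicClosure K ≃+* AlgebraicClosure K)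
    (hc : ∀ x, ιinf (c x) = starRingEnd ℂ (ιinf x))
    (ρ ρ' : F →+* AlgebraicClosure K) (g : F ≃ₐ[K] F) (hg : ∀ x, c (ρ x) = ρ' (g x))
    (w : Additive (𝓞 F)ˣ) :
    archLog (ιinf.comp ρ) w = archLog (ιinf.comp ρ') (unitsHom g w) := by
  show ((Real.log ‖ιinf (ρ ((w.toMul : (𝓞 F)ˣ) : F))‖ : ℝ) : ℂ) =
    ((Real.log ‖ιinf (ρ' (g ((w.toMul : (𝓞 F)ˣ) : F)))‖ : ℝ) : ℂ)
  rw [← hg, hc, RCLike.norm_conj]

theorem alog_conj (ιinf : AlgebraicClosure K →+* ℂ) (c : AlgebraicClosure K ≃+* AlgebraicClosure K)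
    (hc : ∀ x, ιinf (c x) = starRingEnd ℂ (ιinf x)) [Fintype (F ≃ₐ[K] F)] {E : Type} [Field E]
    (ε : E →+* ℂ) (χ' : (F ≃ₐ[K] F) →* Eˣ)
    (ρ ρ' : F →+* AlgebraicClosure K) (k : F ≃ₐ[K] F) (hg : ∀ x, c (ρ x) = ρ' (k x))
    (u : Additive (𝓞 F)ˣ) :
    alog ε χ' (ιinf.comp ρ) u = ε (χ' k : Eˣ) * alog ε χ' (ιinf.comp ρ') u := by
  unfold alog
  rw [Finset.mul_sum]
  refine Fintype.sum_equiv (Equiv.mulLeft k) _ _ fun g => ?_
  rw [Equiv.coe_mulLeft, arch_conj ιinf c hc ρ ρ' k hg, mul_inv_rev, map_mul, map_inv χ' k,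
    ← mul_assoc, ← map_mul]
  have h1 : (((χ' k : Eˣ) : E) * ((χ' g⁻¹ * (χ' k)⁻¹ : Eˣ) : E)) = ((χ' g⁻¹ : Eˣ) : E) := by
    rw [← Units.val_mul, mul_comm (χ' g⁻¹), mul_inv_cancel_left]
  rw [h1]
  rfl

end

theorem t (hU : U_ARC) (hA : A_CM) : Pool.Agent.Helper16.SD.A_NDG := by
  intro F₀ K _ _ _ _ _ _ _ hfin ιinf c hcc hc F _ _ _ _ _ E _ ε χ' hχ s h hs hsh hcoc
  obtain ⟨J, -, hJ⟩ := hA F₀ K hfin
  have hfree : ∀ σ : K →+* AlgebraicClosure K, c • σ ≠ σ := fun σ => (hJ ιinf c hc σ).2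
  have hinv : ∀ σ : K →+* AlgebraicClosure K, c • (c • σ) = σ := fun σ => by
    rw [smul_smul, hcc, one_smul]
  have hcard : Fintype.card (K →+* AlgebraicClosure K) = 2 * finrank ℚ F₀ := by
    rw [NumberField.Embeddings.card, ← Module.finrank_mul_finrank ℚ F₀ K, hfin, mul_comm]
  obtain ⟨rep, r1, r2, r3⟩ := exists_rep (fun σ => c • σ) hinv hfree _ hcard
  have hres : ∀ σ : K →+* AlgebraicClosure K,
      (ιinf.comp (s σ)).comp (algebraMap K F) = ιinf.comp σ := by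
    intro σ
    rw [RingHom.comp_assoc, hs σ]
  obtain ⟨u, hu⟩ := hU K F E ε χ' hχ (finrank ℚ F₀) (fun j => ιinf.comp (s (rep j))) (by
    intro i j hij
    rw [hres, hres, InfinitePlace.mk_eq_iff] at hij
    rcases hij with hij | hij
    · refine r1 i j (RingHom.ext fun x => ιinf.injective ?_)
      exact RingHom.congr_fun hij x
    · exfalso
      refine r2 i j (RingHom.ext fun x => ιinf.injective ?_)
      show ιinf (c (rep i x)) = ιinf (rep j x)
      rw [hc]
      exact RingHom.congr_fun hij x)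
  refine ⟨u, fun z hz => ?_⟩
  have hinvα : ∀ (σ : K →+* AlgebraicClosure K) r, alog ε χ' (ιinf.comp (s σ)) (u r) =
      ε (χ' (h c σ) : Eˣ) * alog ε χ' (ιinf.comp (s (c • σ))) (u r) := fun σ r =>
    alog_conj ιinf c hc ε χ' (s σ) (s (c • σ)) (h c σ) (hsh c σ) (u r)
  have hne : ∀ σ : K →+* AlgebraicClosure K, ε (χ' (h c σ) : Eˣ) ≠ 0 := fun σ => by
    rw [Ne, map_eq_zero]
    exact (χ' (h c σ)).ne_zero
  have h11 : ∀ σ : K →+* AlgebraicClosure K, h 1 σ = 1 := by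
    intro σ
    have h1 := hcoc 1 1 σ
    rw [one_smul, mul_one] at h1
    exact (mul_eq_right.1 h1.symm)
  have hhc : ∀ σ : K →+* AlgebraicClosure K,
      ε (χ' (h c (c • σ)) : Eˣ) * ε (χ' (h c σ) : Eˣ) = 1 := by
    intro σ
    have h1 := hcoc c c σ
    rw [hcc, h11] at h1
    rw [← map_mul, ← Units.val_mul, ← map_mul, ← h1, map_one, Units.val_one, map_one]
  have hy : (fun j => z (rep j) + ε (χ' (h c (c • rep j)) : Eˣ) * z (c • rep j)) = 0 := by
    refine Matrix.eq_zero_of_mulVec_eq_zero hu (funext fun r => ?_)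
    have h1 := hz r
    rw [sum_rep (fun σ : K →+* AlgebraicClosure K => c • σ) hinv rep r1 r2 r3] at h1
    rw [Pi.zero_apply, ← h1]
    show ∑ j, alog ε χ' (ιinf.comp (s (rep j))) (u r) * _ = _
    refine Finset.sum_congr rfl fun j _ => ?_
    have h2 : alog ε χ' (ιinf.comp (s (c • rep j))) (u r) =
        ε (χ' (h c (c • rep j)) : Eˣ) * alog ε χ' (ιinf.comp (s (rep j))) (u r) := by
      rw [hinvα (c • rep j) r, hinv]
    show _ = z (rep j) * _ + z (c • rep j) * alog ε χ' (ιinf.comp (s (c • rep j))) (u r)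
    rw [h2]
    ring
  intro σ
  obtain ⟨j, hj | hj⟩ := r3 σ
  · rw [hj]
    exact congrFun hy j
  · have h1 : z (rep j) + ε (χ' (h c (c • rep j)) : Eˣ) * z (c • rep j) = 0 := congrFun hy j
    have h2 := hhc (rep j)
    have hj' : σ = c • rep j := hj
    rw [hj', hinv]
    linear_combination ε (χ' (h c (rep j)) : Eˣ) * h1 - z (c • rep j) * h2

end Pool.Agent.Helper49.SD.A_NDG
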