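import Pool.Agent.Helper38.SD.GoalsB

/-!
# Project SD (MP_fc6b1e_nt), packet M_CNT: the number of independent transversals
-/

set_option autoImplicit false

namespace Pool.Agent.Helper49.SD

open Module Pool.Agent.Helper38.SD

/-- the constant function one half plus a small multiple of `z` is in the polytope -/
theorem pol_mem {I : Type} [Fintype I] (c : I → I) (r : Finset I → ℕ)
    (h2 : ∀ T : Finset I, T.card ≤ 2 * r T) (z : I → ℝ) (hz : ∀ i, z (c i) = - z i)
    (hA : ∀ A : Finset I, 2 * r A = A.card → ∑ i ∈ A, z i = 0) (ε : ℝ) (hε : 0 ≤ ε)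
    (hM : ε * ∑ i, |z i| ≤ 1 / 2) : (fun i => 1 / 2 + ε * z i) ∈ Pol c r := by
  refine ⟨?_, ?_, ?_⟩
  · intro i
    have h1 : |z i| ≤ ∑ i, |z i| :=
      Finset.single_le_sum (f := fun i => |z i|) (fun i _ => abs_nonneg _) (Finset.mem_univ i)
    have h3 : ε * |z i| ≤ 1 / 2 := le_trans (mul_le_mul_of_nonneg_left h1 hε) hM
    have h4 : -(ε * |z i|) ≤ ε * z i := by
      rw [← mul_neg]
      exact mul_le_mul_of_nonneg_left (neg_abs_le _) hε
    show 0 ≤ 1 / 2 + ε * z i
    linarith
  · intro i
    show (1 / 2 + ε * z i) + (1 / 2 + ε * z (c i)) = 1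
    rw [hz]
    ring
  · intro A
    have e1 : ∑ i ∈ A, (1 / 2 + ε * z i) = (A.card : ℝ) / 2 + ε * ∑ i ∈ A, z i := by
      rw [Finset.sum_add_distrib, Finset.sum_const, nsmul_eq_mul, Finset.mul_sum]
      ring
    show ∑ i ∈ A, (1 / 2 + ε * z i) ≤ r A
    rw [e1]
    rcases Nat.lt_or_ge A.card (2 * r A) with h | h
    · have h5 : ((A.card + 1 : ℕ) : ℝ) ≤ ((2 * r A : ℕ) : ℝ) := Nat.cast_le.mpr h
      push_cast at h5
      have h6 : ∑ i ∈ A, z i ≤ ∑ i, |z i| :=
        le_trans (Finset.sum_le_sum fun i _ => le_abs_self _)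
          (Finset.sum_le_sum_of_subset_of_nonneg (Finset.subset_univ A) fun i _ _ => abs_nonneg _)
      have h7 := mul_le_mul_of_nonneg_left h6 hε
      linarith
    · have h5 : 2 * r A = A.card := le_antisymm h (h2 A)
      rw [hA A h5, mul_zero, add_zero, ← h5]
      push_cast
      linarith

theorem vec_mem {I : Type} [Fintype I] (c : I → I) (r : Finset I → ℕ)
    (h2 : ∀ T : Finset I, T.card ≤ 2 * r T) (z : I → ℝ) (hz : ∀ i, z (c i) = - z i)
    (hA : ∀ A : Finset I, 2 * r A = A.card → ∑ i ∈ A, z i = 0) (G : Set (I → ℝ))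
    (hG : Pol c r ⊆ convexHull ℝ G) : z ∈ vectorSpan ℝ G := by
  set M := ∑ i, |z i| with hMdef
  have hM0 : 0 ≤ M := Finset.sum_nonneg fun i _ => abs_nonneg _
  have hε : 0 < 1 / (2 * (1 + M)) := by positivity
  have h1 := pol_mem c r h2 z hz hA (1 / (2 * (1 + M))) hε.le (by
    rw [← hMdef, one_div, inv_mul_le_iff₀ (by positivity)]
    linarith)
  have h0 := pol_mem c r h2 z hz hA 0 le_rfl (by rw [zero_mul]; norm_num)
  have h1' := convexHull_subset_affineSpan (𝕜 := ℝ) G (hG h1)
  have h0' := convexHull_subset_affineSpan (𝕜 := ℝ) G (hG h0)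
  have h3 := AffineSubspace.vsub_mem_direction h1' h0'
  rw [direction_affineSpan] at h3
  have h4 : ((fun i => 1 / 2 + (1 / (2 * (1 + M))) * z i) : I → ℝ) -ᵥ
      ((fun i => 1 / 2 + 0 * z i) : I → ℝ) = (1 / (2 * (1 + M))) • z := by
    funext i
    show 1 / 2 + (1 / (2 * (1 + M))) * z i - (1 / 2 + 0 * z i) = (1 / (2 * (1 + M))) * z i
    ring
  rw [h4] at h3
  have h5 := Submodule.smul_mem _ (1 / (2 * (1 + M)))⁻¹ h3
  rwa [inv_smul_smul₀ hε.ne'] at h5

theorem count {I : Type} [Fintype I] (G : Set (I → ℝ)) (hGf : G.Finite) (hGn : G.Nonempty)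
    {E : Type} [AddCommGroup E] [Module ℝ E] [FiniteDimensional ℝ E] (L : (I → ℝ) →ₗ[ℝ] E)
    (hL : ∀ z, L z = 0 → z ∈ vectorSpan ℝ G) : Fintype.card I + 1 ≤ finrank ℝ E + G.ncard := by
  have h1 := LinearMap.finrank_range_add_finrank_ker L
  have h2 : finrank ℝ (LinearMap.range L) ≤ finrank ℝ E := Submodule.finrank_le _
  have _ := hGf.fintype
  have _ := hGn.to_subtype
  have h3 := finrank_vectorSpan_range_add_one_le ℝ (Subtype.val : G → (I → ℝ))
  rw [Subtype.range_coe] at h3
  have h4 : finrank ℝ (LinearMap.ker L) ≤ finrank ℝ (vectorSpan ℝ G) :=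
    Submodule.finrank_mono (fun z hz => hL z (LinearMap.mem_ker.1 hz))
  have h5 : finrank ℝ (I → ℝ) = Fintype.card I := Module.finrank_fintype_fun_eq_card ℝ
  have h6 : Nat.card G = Fintype.card G := Nat.card_eq_fintype_card
  have h7 : G.ncard = Nat.card G := rfl
  have h8 : finrank ℝ (vectorSpan ℝ G) + 1 ≤ G.ncard := by
    rw [h7, h6]
    exact h3
  omega

theorem m_cnt (hHUL : M_HUL) : M_CNT := by
  intro k V I _ _ _ _ _ _ c l d hd hc hne hI h2 h3
  classical
  rcases Nat.eq_zero_or_pos d with hd0 | hdpos
  · subst hd0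
    exact Nat.zero_le _
  set r : Finset I → ℕ := fun T => finrank k (Submodule.span k (l '' (T : Set I))) with hr
  have h2' : ∀ T : Finset I, T.card ≤ 2 * r T := h2
  have h3' : ∀ T : Finset I, 0 < T.card → T.card < 2 * d → T.card ≠ d → T.card < 2 * r T := h3
  have hsub : ∀ A B : Finset I, r (A ∪ B) + r (A ∩ B) ≤ r A + r B := by
    intro A B
    have e1 : Submodule.span k (l '' ((A ∪ B : Finset I) : Set I)) =
        Submodule.span k (l '' (A : Set I)) ⊔ Submodule.span k (l '' (B : Set I)) := by
      rw [Finset.coe_union, Set.image_union, Submodule.span_union]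
    have e2 : Submodule.span k (l '' ((A ∩ B : Finset I) : Set I)) ≤
        Submodule.span k (l '' (A : Set I)) ⊓ Submodule.span k (l '' (B : Set I)) := by
      rw [Finset.coe_inter]
      exact le_inf (Submodule.span_mono (Set.image_mono Set.inter_subset_left))
        (Submodule.span_mono (Set.image_mono Set.inter_subset_right))
    have e3 := Submodule.finrank_sup_add_finrank_inf_eq (Submodule.span k (l '' (A : Set I)))
      (Submodule.span k (l '' (B : Set I)))
    have e4 := Submodule.finrank_mono e2
    show finrank k (Submodule.span k (l '' ((A ∪ B : Finset I) : Set I))) +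
      finrank k (Submodule.span k (l '' ((A ∩ B : Finset I) : Set I))) ≤
      finrank k (Submodule.span k (l '' (A : Set I))) +
        finrank k (Submodule.span k (l '' (B : Set I)))
    rw [e1]
    omega
  have huniv : r Finset.univ = d := by
    have e1 := h2' Finset.univ
    rw [Finset.card_univ, hI] at e1
    have e2 : r Finset.univ ≤ finrank k V := Submodule.finrank_le _
    omega
  set G : Set (I → ℝ) := {x | x ∈ Pol c r ∧ ∀ i, x i = 0 ∨ x i = 1} with hGdef
  have hG : Pol c r ⊆ convexHull ℝ G := hHUL I c r d hc hne hI huniv hsub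
  -- the integral points give transversals
  set SS : Set (Set I) := {S : Set I | (∀ i, i ∈ S ↔ c i ∉ S) ∧
    LinearIndependent k (fun i : S ↦ l i)} with hSS
  have hmaps : Set.MapsTo (fun x : I → ℝ => {i | x i = 1}) G SS := by
    intro x hx
    obtain ⟨⟨hx0, hx1, hx2⟩, hx3⟩ := hx
    refine ⟨?_, ?_⟩
    · intro i
      show x i = 1 ↔ ¬ x (c i) = 1
      have e1 := hx1 i
      constructor
      · intro h h'
        rw [h, h'] at e1
        norm_num at e1
      · intro h
        rcases hx3 (c i) with h' | h'
        · linarith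
        · exact absurd h' h
    · show LinearIndependent k (fun i : {i | x i = 1} ↦ l i)
      rw [linearIndependent_iff_card_le_finrank_span]
      have e1 := hx2 (Finset.univ.filter fun i => x i = 1)
      have e2 : ∑ i ∈ Finset.univ.filter (fun i => x i = 1), x i =
          ((Finset.univ.filter fun i => x i = 1).card : ℝ) := by
        rw [Finset.sum_congr rfl (fun i hi => (Finset.mem_filter.1 hi).2), Finset.sum_const,
          nsmul_eq_mul, mul_one]
      rw [e2] at e1
      have e3 : (Finset.univ.filter fun i => x i = 1).card ≤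
          r (Finset.univ.filter fun i => x i = 1) := Nat.cast_le.mp e1
      have e4 : Fintype.card {i | x i = 1} = (Finset.univ.filter fun i => x i = 1).card := by
        rw [Fintype.card_subtype]
        rfl
      have e5 : Set.range (fun i : {i | x i = 1} ↦ l i) =
          l '' ((Finset.univ.filter fun i => x i = 1 : Finset I) : Set I) := by
        ext v
        simp
      rw [e4, Set.finrank, e5]
      exact e3
  have hinj : Set.InjOn (fun x : I → ℝ => {i | x i = 1}) G := by
    intro x hx y hy hxy
    funext i
    have e1 : x i = 1 ↔ y i = 1 := Set.ext_iff.1 hxy i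
    rcases hx.2 i with h | h
    · rcases hy.2 i with h' | h'
      · rw [h, h']
      · rw [e1.2 h', h']
    · rw [h, e1.1 h]
  have hSSf : SS.Finite := Set.toFinite _
  have hGf : G.Finite := Set.Finite.of_injOn hmaps hinj hSSf
  have hcard : G.ncard ≤ SS.ncard := Set.ncard_le_ncard_of_injOn _ hmaps hinj hSSf
  have hGn : G.Nonempty := by
    have e1 := pol_mem c r h2' 0 (fun i => by simp) (fun A _ => by simp) 0 le_rfl (by simp)
    exact convexHull_nonempty_iff.1 ⟨_, hG e1⟩
  -- representatives of the pairs
  obtain ⟨n, ⟨e⟩⟩ : ∃ n : ℕ, Nonempty (I ≃ Fin n) := ⟨_, ⟨Fintype.equivFin I⟩⟩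
  set R : Finset I := Finset.univ.filter fun i => e i < e (c i) with hR
  have hRc : (Finset.univ.filter fun i => ¬ e i < e (c i)).card = R.card := by
    refine Finset.card_nbij' c c ?_ ?_ (fun i _ => hc i) (fun i _ => hc i)
    · intro i hi
      simp only [hR, Finset.coe_filter, Finset.mem_univ, true_and, Set.mem_ofPred_eq] at hi ⊢
      rw [hc]
      exact lt_of_le_of_ne (not_lt.1 hi) (fun h => hne i (e.injective h))
    · intro i hi
      simp only [hR, Finset.coe_filter, Finset.mem_univ, true_and, Set.mem_ofPred_eq] at hi ⊢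
      rw [hc]
      exact not_lt.2 hi.le
  have hRd : R.card = d := by
    have e1 := Finset.card_filter_add_card_filter_not (s := (Finset.univ : Finset I))
      (fun i => e i < e (c i))
    rw [hRc, Finset.card_univ, hI] at e1
    have e2 : (Finset.univ.filter fun i => e i < e (c i)).card = R.card := rfl
    omega
  set L : (I → ℝ) →ₗ[ℝ] (R → ℝ) := LinearMap.pi fun i : R =>
    LinearMap.proj (R := ℝ) (φ := fun _ : I => ℝ) (i : I) +
      LinearMap.proj (R := ℝ) (φ := fun _ : I => ℝ) (c i) with hL
  have hLa : ∀ (z : I → ℝ) (i : R), L z i = z i + z (c i) := by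
    intro z i
    simp only [hL, LinearMap.pi_apply, LinearMap.add_apply, LinearMap.proj_apply]
  have hLz : ∀ z, L z = 0 → ∀ i, z (c i) = - z i := by
    intro z hz i
    by_cases hi : e i < e (c i)
    · have e1 := congrFun hz ⟨i, Finset.mem_filter.2 ⟨Finset.mem_univ _, hi⟩⟩
      rw [hLa] at e1
      have e2 : z i + z (c i) = 0 := e1
      linarith
    · have hi' : e (c i) < e (c (c i)) := by
        rw [hc]
        exact lt_of_le_of_ne (not_lt.1 hi) (fun h => hne i (e.injective h))
      have e1 := congrFun hz ⟨c i, Finset.mem_filter.2 ⟨Finset.mem_univ _, hi'⟩⟩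
      rw [hLa] at e1
      have e2 : z (c i) + z (c (c i)) = 0 := e1
      rw [hc] at e2
      linarith
  have hzuniv : ∀ z : I → ℝ, (∀ i, z (c i) = - z i) → ∑ i, z i = 0 := by
    intro z hz
    have e1 : ∑ i, z (c i) = ∑ i, z i :=
      Equiv.sum_comp (⟨c, c, hc, hc⟩ : I ≃ I) z
    have e2 : ∑ i, z (c i) = - ∑ i, z i := by
      rw [← Finset.sum_neg_distrib]
      exact Finset.sum_congr rfl fun i _ => hz i
    linarith
  have hfR : finrank ℝ (R → ℝ) = d := by
    rw [Module.finrank_fintype_fun_eq_card, Fintype.card_coe, hRd]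
  by_cases htight : ∃ A : Finset I, A.card = d ∧ 2 * r A = d
  · obtain ⟨A₀, hA1, hA2⟩ := htight
    have key := count G hGf hGn (L.prod (∑ i ∈ A₀, LinearMap.proj (R := ℝ) (φ := fun _ : I => ℝ) i))
      (by
        intro z hz
        have e1 : L z = 0 := congrArg Prod.fst hz
        have e2 : (∑ i ∈ A₀, LinearMap.proj (R := ℝ) (φ := fun _ : I => ℝ) i) z = 0 :=
          congrArg Prod.snd hz
        rw [LinearMap.sum_apply] at e2
        have e3 : ∑ i ∈ A₀, z i = 0 := e2
        have e4 := hLz z e1
        refine vec_mem c r h2' z e4 ?_ G hG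
        intro A hA
        by_cases hAd : A.card = d
        · by_cases hAA : A = A₀
          · rw [hAA, e3]
          · have f1 := hsub A A₀
            have f2 := h2' (A ∪ A₀)
            have f3 := h2' (A ∩ A₀)
            have f4 := Finset.card_union_add_card_inter A A₀
            have f5 : (A ∪ A₀).card ≤ 2 * d := hI ▸ Finset.card_le_univ _
            have f6 : d < (A ∪ A₀).card := by
              by_contra hcon
              have g1 : A = A ∪ A₀ := Finset.eq_of_subset_of_card_le Finset.subset_union_left
                (by omega)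
              have g2 : A₀ = A ∪ A₀ := Finset.eq_of_subset_of_card_le Finset.subset_union_right
                (by omega)
              exact hAA (g1.trans g2.symm)
            have f7 : (A ∪ A₀).card = 2 * d := by
              by_contra hcon
              have g1 := h3' (A ∪ A₀) (by omega) (by omega) (by omega)
              omega
            have f8 : A ∪ A₀ = Finset.univ := by
              rw [← Finset.card_eq_iff_eq_univ, f7, hI]
            have f9 : A ∩ A₀ = ∅ := by
              rw [← Finset.card_eq_zero]
              omega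
            have f10 := Finset.sum_union_inter (s₁ := A) (s₂ := A₀) (f := z)
            rw [f8, f9, hzuniv z e4, e3, Finset.sum_empty] at f10
            linarith
        · by_cases hA0 : A.card = 0
          · rw [Finset.card_eq_zero.1 hA0, Finset.sum_empty]
          · have f5 : A.card ≤ 2 * d := hI ▸ Finset.card_le_univ _
            have f7 : A.card = 2 * d := by
              by_contra hcon
              have g1 := h3' A (by omega) (by omega) hAd
              omega
            have f8 : A = Finset.univ := by
              rw [← Finset.card_eq_iff_eq_univ, f7, hI]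
            rw [f8]
            exact hzuniv z e4)
    rw [Module.finrank_prod, hfR, Module.finrank_self, hI] at key
    have hev : d % 2 = 0 := by omega
    omega
  · have key := count G hGf hGn L
      (by
        intro z hz
        have e4 := hLz z hz
        refine vec_mem c r h2' z e4 ?_ G hG
        intro A hA
        by_cases hAd : A.card = d
        · exact absurd ⟨A, hAd, hA.trans hAd⟩ htight
        · by_cases hA0 : A.card = 0
          · rw [Finset.card_eq_zero.1 hA0, Finset.sum_empty]
          · have f5 : A.card ≤ 2 * d := hI ▸ Finset.card_le_univ _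
            have f7 : A.card = 2 * d := by
              by_contra hcon
              have g1 := h3' A (by omega) (by omega) hAd
              omega
            have f8 : A = Finset.univ := by
              rw [← Finset.card_eq_iff_eq_univ, f7, hI]
            rw [f8]
            exact hzuniv z e4)
    rw [hfR, hI] at key
    omega

end Pool.Agent.Helper49.SD
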